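import Pool.Agent.Helper797.Abel

/-!
`H(p,q,m,n)` for all `p > q ≥ 2` and all `m, n` with `m = 0` or `n = 0`:
it is `2` when `p - q` is odd and `3` when `p - q` is even.
-/

set_option autoImplicit false
open Set MP_bb703b_an_797

namespace Pool.Agent.Results.MP_bb703b_an.OneConstant

lemma init_uniq {p q : ℕ} {A B : ℝ → ℝ} (hA : Continuous A) (hB : Continuous B) (hq : 2 ≤ q)
    (hpq : q < p)
    (hc : (∃ a : ℝ, a ≠ 0 ∧ A = fun _ => a) ∨ (∃ b : ℝ, b ≠ 0 ∧ B = fun _ => b))
    {c d : ℝ} (hcI : c ∈ Init p q A B) (hdI : d ∈ Init p q A B)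
    (hs : (0 < c ∧ 0 < d) ∨ (c < 0 ∧ d < 0) ∨ (Odd (p - q) ∧ c ≠ 0 ∧ d ≠ 0)) : c = d := by
  obtain ⟨x, hx, hxc⟩ := hcI
  obtain ⟨y, hy, hyd⟩ := hdI
  rcases lt_trichotomy c d with h | h | h
  · exfalso
    refine uniq_same hA hB hq hpq hc hx hy (by rw [hxc, hyd]; exact h) ?_
    rw [hxc, hyd]; exact hs
  · exact h
  · exfalso
    refine uniq_same hA hB hq hpq hc hy hx (by rw [hxc, hyd]; exact h) ?_
    rw [hxc, hyd]
    rcases hs with h1 | h1 | h1
    · exact Or.inl ⟨h1.2, h1.1⟩
    · exact Or.inr (Or.inl ⟨h1.2, h1.1⟩)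
    · exact Or.inr (Or.inr ⟨h1.1, h1.2.2, h1.2.1⟩)

lemma upper {p q : ℕ} {A B : ℝ → ℝ} (hA : Continuous A) (hB : Continuous B) (hq : 2 ≤ q)
    (hpq : q < p) (hc : (∃ a : ℝ, A = fun _ => a) ∨ (∃ b : ℝ, B = fun _ => b)) :
    (LC p q A B).encard ≤ if Odd (p - q) then 2 else 3 := by
  by_cases hdeg : A = (fun _ => 0) ∨ B = (fun _ => 0)
  · have h1 : (LC p q A B).encard ≤ 1 := by
      refine (encard_le_encard (deg hA hB hq hpq hdeg)).trans ?_
      rw [encard_singleton]
    refine h1.trans ?_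
    split_ifs <;> norm_num
  · push Not at hdeg
    have hc' : (∃ a : ℝ, a ≠ 0 ∧ A = fun _ => a) ∨ (∃ b : ℝ, b ≠ 0 ∧ B = fun _ => b) := by
      rcases hc with ⟨a, rfl⟩ | ⟨b, rfl⟩
      · refine Or.inl ⟨a, ?_, rfl⟩
        rintro rfl; exact hdeg.1 rfl
      · refine Or.inr ⟨b, ?_, rfl⟩
        rintro rfl; exact hdeg.2 rfl
    have hLI : LC p q A B ⊆ Init p q A B := fun c hc => hc.1
    split_ifs with hodd
    · have hsub : LC p q A B ⊆ {0} ∪ (Init p q A B \ {0}) := by
        intro c hc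
        by_cases h : c = 0
        · exact Or.inl h
        · exact Or.inr ⟨hLI hc, h⟩
      have h1 : (Init p q A B \ {0}).encard ≤ 1 := by
        rw [encard_le_one_iff]
        intro a b ha hb
        exact init_uniq hA hB hq hpq hc' ha.1 hb.1 (Or.inr (Or.inr ⟨hodd, ha.2, hb.2⟩))
      calc (LC p q A B).encard ≤ ({0} ∪ (Init p q A B \ {0})).encard := encard_le_encard hsub
        _ ≤ ({0} : Set ℝ).encard + (Init p q A B \ {0}).encard := encard_union_le _ _
        _ ≤ 1 + 1 := by rw [encard_singleton]; gcongr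
        _ = 2 := by norm_num
    · have hsub : LC p q A B ⊆ ({0} ∪ (Init p q A B ∩ Ioi 0)) ∪ (Init p q A B ∩ Iio 0) := by
        intro c hc
        rcases lt_trichotomy c 0 with h | h | h
        · exact Or.inr ⟨hLI hc, h⟩
        · exact Or.inl (Or.inl h)
        · exact Or.inl (Or.inr ⟨hLI hc, h⟩)
      have h1 : (Init p q A B ∩ Ioi 0).encard ≤ 1 := by
        rw [encard_le_one_iff]
        intro a b ha hb
        exact init_uniq hA hB hq hpq hc' ha.1 hb.1 (Or.inl ⟨ha.2, hb.2⟩)
      have h2 : (Init p q A B ∩ Iio 0).encard ≤ 1 := by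
        rw [encard_le_one_iff]
        intro a b ha hb
        exact init_uniq hA hB hq hpq hc' ha.1 hb.1 (Or.inr (Or.inl ⟨ha.2, hb.2⟩))
      calc (LC p q A B).encard
          ≤ (({0} ∪ (Init p q A B ∩ Ioi 0)) ∪ (Init p q A B ∩ Iio 0)).encard := encard_le_encard hsub
        _ ≤ ({0} ∪ (Init p q A B ∩ Ioi 0)).encard + (Init p q A B ∩ Iio 0).encard := encard_union_le _ _
        _ ≤ (({0} : Set ℝ).encard + (Init p q A B ∩ Ioi 0).encard) + (Init p q A B ∩ Iio 0).encard := by
            gcongr; exact encard_union_le _ _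
        _ ≤ (1 + 1) + 1 := by rw [encard_singleton]; gcongr
        _ = 3 := by norm_num

lemma const_mem {p q : ℕ} (c : ℝ) (h : c ^ p = c ^ q) :
    c ∈ Init p q (fun _ => 1) (fun _ => -1) := by
  refine ⟨fun _ => c, ⟨fun t => ?_, fun t => rfl⟩, rfl⟩
  have e : (1 : ℝ) * c ^ p + -1 * c ^ q = 0 := by rw [h]; ring
  simp only
  rw [e]
  exact hasDerivAt_const t c

lemma lower {p q : ℕ} (hq : 2 ≤ q) (hpq : q < p) :
    (if Odd (p - q) then 2 else 3 : ℕ∞) ≤ (LC p q (fun _ => 1) (fun _ => -1)).encard := by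
  have hc : (∃ a : ℝ, a ≠ 0 ∧ (fun _ : ℝ => (1 : ℝ)) = fun _ => a) ∨
      (∃ b : ℝ, b ≠ 0 ∧ (fun _ : ℝ => (-1 : ℝ)) = fun _ => b) := Or.inl ⟨1, one_ne_zero, rfl⟩
  have m0 : (0 : ℝ) ∈ Init p q (fun _ => 1) (fun _ => -1) :=
    const_mem 0 (by rw [zero_pow (by omega), zero_pow (by omega)])
  have m1 : (1 : ℝ) ∈ Init p q (fun _ => 1) (fun _ => -1) := const_mem 1 (by simp)
  have hpos : ∀ d ∈ Init p q (fun _ => 1) (fun _ => -1), 0 < d → d = 1 := fun d hd h =>
    init_uniq continuous_const continuous_const hq hpq hc hd m1 (Or.inl ⟨h, one_pos⟩)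
  split_ifs with hodd
  · have hall : ∀ d ∈ Init p q (fun _ => 1) (fun _ => -1), d = 0 ∨ d = 1 := by
      intro d hd
      by_cases h : d = 0
      · exact Or.inl h
      · exact Or.inr (init_uniq continuous_const continuous_const hq hpq hc hd m1
          (Or.inr (Or.inr ⟨hodd, h, one_ne_zero⟩)))
    have hsub : ({0, 1} : Set ℝ) ⊆ LC p q (fun _ => 1) (fun _ => -1) := by
      rintro c (rfl | rfl)
      · refine ⟨m0, 1, one_pos, fun d hd h => ?_⟩
        rcases hall d hd with rfl | rfl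
        · rfl
        · norm_num at h
      · refine ⟨m1, 1, one_pos, fun d hd h => ?_⟩
        rcases hall d hd with rfl | rfl
        · norm_num at h
        · rfl
    calc (2 : ℕ∞) = ({0, 1} : Set ℝ).encard := (encard_pair (by norm_num)).symm
      _ ≤ _ := encard_le_encard hsub
  · have heven : Even (p - q) := Nat.not_odd_iff_even.mp hodd
    have mm : (-1 : ℝ) ∈ Init p q (fun _ => 1) (fun _ => -1) := by
      refine const_mem (-1) ?_
      have : p = q + (p - q) := by omega
      rw [this, pow_add, heven.neg_one_pow, mul_one]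
    have hneg : ∀ d ∈ Init p q (fun _ => 1) (fun _ => -1), d < 0 → d = -1 := fun d hd h =>
      init_uniq continuous_const continuous_const hq hpq hc hd mm (Or.inr (Or.inl ⟨h, by norm_num⟩))
    have hall : ∀ d ∈ Init p q (fun _ => 1) (fun _ => -1), d = 0 ∨ d = 1 ∨ d = -1 := by
      intro d hd
      rcases lt_trichotomy d 0 with h | h | h
      · exact Or.inr (Or.inr (hneg d hd h))
      · exact Or.inl h
      · exact Or.inr (Or.inl (hpos d hd h))
    have hsub : ({0, 1, -1} : Set ℝ) ⊆ LC p q (fun _ => 1) (fun _ => -1) := by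
      rintro c (rfl | rfl | rfl)
      · refine ⟨m0, 1, one_pos, fun d hd h => ?_⟩
        rcases hall d hd with rfl | rfl | rfl
        · rfl
        · norm_num at h
        · norm_num at h
      · refine ⟨m1, 1, one_pos, fun d hd h => ?_⟩
        rcases hall d hd with rfl | rfl | rfl
        · norm_num at h
        · rfl
        · norm_num [abs_lt] at h
      · refine ⟨mm, 1, one_pos, fun d hd h => ?_⟩
        rcases hall d hd with rfl | rfl | rfl
        · norm_num at h
        · norm_num [abs_lt] at h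
        · rfl
    have hcard : ({0, 1, -1} : Set ℝ).encard = 3 := by
      rw [encard_insert_of_notMem (by norm_num), encard_pair (by norm_num)]; norm_num
    calc (3 : ℕ∞) = ({0, 1, -1} : Set ℝ).encard := hcard.symm
      _ ≤ _ := encard_le_encard hsub

theorem result (p q m n : ℕ) (hq : 2 ≤ q) (hpq : q < p) (h : m = 0 ∨ n = 0) :
    H p q m n = if Odd (p - q) then 2 else 3 := by
  refine le_antisymm ?_ ?_
  · unfold H
    refine iSup_le fun A => iSup_le fun B => iSup_le fun hA => iSup_le fun hB => ?_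
    refine upper hA.cont hB.cont hq hpq ?_
    rcases h with rfl | rfl
    · exact Or.inl hA.const
    · exact Or.inr hB.const
  · refine (lower hq hpq).trans ?_
    unfold H
    exact le_iSup_of_le _ (le_iSup_of_le _ (le_iSup_of_le (isTrig_const m 1)
      (le_iSup_of_le (isTrig_const n (-1)) le_rfl)))

end Pool.Agent.Results.MP_bb703b_an.OneConstant
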